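import Mathlib

set_option autoImplicit false

/-!
Profinite completions of a group with respect to a family of normal subgroups of finite index.
-/

namespace Pool.Agent.V1128.LF

/-- A family of normal subgroups of finite index. -/
structure Fam (Γ : Type) [Group Γ] where
  mem : Set (Subgroup Γ)
  normal : ∀ N ∈ mem, N.Normal
  fin : ∀ N ∈ mem, N.FiniteIndex
  up : ∀ N ∈ mem, ∀ M : Subgroup Γ, M.Normal → N ≤ M → M ∈ mem
  inf : ∀ N ∈ mem, ∀ M ∈ mem, N ⊓ M ∈ mem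
  top : ⊤ ∈ mem

variable {Γ : Type} [Group Γ] (𝓕 : Fam Γ)

/-- The finite quotients. -/
def Qt (N : 𝓕.mem) : Type := Γ ⧸ N.1

instance (N : 𝓕.mem) : Group (Qt 𝓕 N) :=
  @QuotientGroup.Quotient.group Γ _ N.1 (𝓕.normal N.1 N.2)

instance (N : 𝓕.mem) : TopologicalSpace (Qt 𝓕 N) := ⊥

instance (N : 𝓕.mem) : DiscreteTopology (Qt 𝓕 N) := ⟨rfl⟩

instance (N : 𝓕.mem) : Finite (Qt 𝓕 N) :=
  let _ : N.1.FiniteIndex := 𝓕.fin N.1 N.2
  inferInstanceAs (Finite (Γ ⧸ N.1))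

/-- The projection to a finite quotient. -/
def toQt (N : 𝓕.mem) : Γ →* Qt 𝓕 N :=
  let _ : N.1.Normal := 𝓕.normal N.1 N.2
  QuotientGroup.mk' N.1

/-- The diagonal map. -/
def diag : Γ →* ∀ N : 𝓕.mem, Qt 𝓕 N := MonoidHom.pi fun N => toQt 𝓕 N

/-- The completion. -/
def Cp : Subgroup (∀ N : 𝓕.mem, Qt 𝓕 N) := (diag 𝓕).range.topologicalClosure

instance : CompactSpace (Cp 𝓕) :=
  isCompact_iff_compactSpace.mp (Subgroup.isClosed_topologicalClosure _).isCompact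

/-- The map to the completion. -/
def emb : Γ →* Cp 𝓕 :=
  (diag 𝓕).codRestrict (Cp 𝓕) fun w => Subgroup.le_topologicalClosure _ ⟨w, rfl⟩

theorem emb_dense : DenseRange (emb 𝓕) := by
  have h1 : DenseRange (fun w : Γ => (⟨diag 𝓕 w, subset_closure ⟨w, rfl⟩⟩ :
      closure (Set.range (diag 𝓕)))) := by
    rw [DenseRange, Subtype.dense_iff]
    intro x hx
    have : Subtype.val '' Set.range (fun w : Γ => (⟨diag 𝓕 w, subset_closure ⟨w, rfl⟩⟩ :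
      closure (Set.range (diag 𝓕)))) = Set.range (diag 𝓕) := by
      rw [← Set.range_comp]
      rfl
    rw [this]
    exact hx
  exact h1

variable {𝓕}

theorem toQt_eq_one {N : 𝓕.mem} {w : Γ} : toQt 𝓕 N w = 1 ↔ w ∈ N.1 := by
  let _ : N.1.Normal := 𝓕.normal N.1 N.2
  exact QuotientGroup.eq_one_iff w

theorem cont_of_ker {G H : Type} [Group G] [TopologicalSpace G] [IsTopologicalGroup G] [Group H]
    [TopologicalSpace H] [DiscreteTopology H] (Φ : G →* H) (h : IsOpen (Φ.ker : Set G)) : Continuous Φ := by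
  have _ : IsTopologicalGroup H := inferInstance
  apply continuous_of_continuousAt_one
  rw [ContinuousAt, map_one, nhds_discrete H, Filter.tendsto_pure]
  exact Filter.mem_of_superset (h.mem_nhds Φ.ker.one_mem) fun g hg => hg

/-- Uniqueness of extensions. -/
theorem uniq {H : Type} [Group H] {Φ Ψ : Cp 𝓕 →* H} (hΦ : IsOpen (Φ.ker : Set (Cp 𝓕)))
    (hΨ : IsOpen (Ψ.ker : Set (Cp 𝓕))) (h : ∀ w, Φ (emb 𝓕 w) = Ψ (emb 𝓕 w)) : Φ = Ψ := by
  let _ : TopologicalSpace H := ⊥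
  have _ : DiscreteTopology H := ⟨rfl⟩
  apply DFunLike.coe_injective
  exact (emb_dense 𝓕).equalizer (cont_of_ker Φ hΦ) (cont_of_ker Ψ hΨ) (funext h)

/-- The kernels of continuous homomorphisms. -/
theorem ker_mem {H : Type} [Group H] {Φ : Cp 𝓕 →* H} (hΦ : IsOpen (Φ.ker : Set (Cp 𝓕))) :
    (Φ.comp (emb 𝓕)).ker ∈ 𝓕.mem := by
  obtain ⟨O, hO, hOV⟩ := isOpen_induced_iff.mp hΦ
  have h1 : (1 : ∀ N : 𝓕.mem, Qt 𝓕 N) ∈ O := by
    have : (1 : Cp 𝓕) ∈ Subtype.val ⁻¹' O := by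
      rw [hOV]
      exact Φ.ker.one_mem
    exact this
  obtain ⟨S, u, hu, hS⟩ := isOpen_pi_iff.mp hO 1 h1
  have hinf : ∀ S : Finset 𝓕.mem, ∃ M ∈ 𝓕.mem, ∀ N ∈ S, M ≤ N.1 := by
    classical
    intro S
    induction S using Finset.induction_on with
    | empty => exact ⟨⊤, 𝓕.top, fun N hN => absurd hN (Finset.notMem_empty N)⟩
    | insert N S _ ih =>
      obtain ⟨M, hM, h2⟩ := ih
      refine ⟨N.1 ⊓ M, 𝓕.inf _ N.2 _ hM, fun N' hN' => ?_⟩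
      rcases Finset.mem_insert.mp hN' with rfl | h3
      · exact inf_le_left
      · exact inf_le_right.trans (h2 N' h3)
  obtain ⟨M, hM, h2⟩ := hinf S
  refine 𝓕.up M hM _ inferInstance fun w hw => ?_
  have h3 : emb 𝓕 w ∈ Subtype.val ⁻¹' O := by
    apply hS
    intro N hN
    have h4 : (emb 𝓕 w).1 N = 1 := toQt_eq_one.mpr (h2 N hN hw)
    rw [h4]
    exact (hu N hN).2
  rw [hOV] at h3
  exact h3

/-- Extension of homomorphisms. -/
theorem ext {H : Type} [Group H] (φ : Γ →* H) (hφ : φ.ker ∈ 𝓕.mem) :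
    ∃ Φ : Cp 𝓕 →* H, IsOpen (Φ.ker : Set (Cp 𝓕)) ∧ ∀ w, Φ (emb 𝓕 w) = φ w := by
  let N : 𝓕.mem := ⟨φ.ker, hφ⟩
  let ψ : Qt 𝓕 N →* H := QuotientGroup.kerLift φ
  let π : Cp 𝓕 →* Qt 𝓕 N :=
    (Pi.evalMonoidHom (fun N : 𝓕.mem => Qt 𝓕 N) N).comp (Cp 𝓕).subtype
  have hπ : Continuous π := (continuous_apply N).comp continuous_subtype_val
  refine ⟨ψ.comp π, ?_, fun w => rfl⟩
  have h1 : ((ψ.comp π).ker : Set (Cp 𝓕)) = π ⁻¹' (ψ.ker : Set (Qt 𝓕 N)) := rfl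
  rw [h1]
  exact (isOpen_discrete _).preimage hπ

/-- Restriction to a smaller family, in the product. -/
def res0 {𝓖 : Fam Γ} (h : 𝓖.mem ⊆ 𝓕.mem) : Cp 𝓕 →* ∀ N : 𝓖.mem, Qt 𝓖 N where
  toFun g N := g.1 ⟨N.1, h N.2⟩
  map_one' := rfl
  map_mul' _ _ := rfl

theorem res0_cont {𝓖 : Fam Γ} (h : 𝓖.mem ⊆ 𝓕.mem) : Continuous (res0 h) := by
  apply continuous_pi
  intro N
  exact (continuous_apply (⟨N.1, h N.2⟩ : 𝓕.mem)).comp continuous_subtype_val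

/-- Restriction to a smaller family. -/
def res {𝓖 : Fam Γ} (h : 𝓖.mem ⊆ 𝓕.mem) : Cp 𝓕 →* Cp 𝓖 :=
  (res0 h).codRestrict (Cp 𝓖) (by
      intro g
      have hcl : IsClosed {g : Cp 𝓕 | res0 h g ∈ Cp 𝓖} :=
        (Subgroup.isClosed_topologicalClosure (diag 𝓖).range).preimage (res0_cont h)
      have hsub : Set.range (emb 𝓕) ⊆ {g : Cp 𝓕 | res0 h g ∈ Cp 𝓖} := by
        rintro _ ⟨w, rfl⟩
        exact Subgroup.le_topologicalClosure _ ⟨w, rfl⟩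
      have h1 := closure_minimal hsub hcl
      rw [(emb_dense 𝓕).closure_range] at h1
      exact h1 (Set.mem_univ g))

theorem res_apply {𝓖 : Fam Γ} (h : 𝓖.mem ⊆ 𝓕.mem) (g : Cp 𝓕) (N : 𝓖.mem) :
    (res h g).1 N = (g.1 ⟨N.1, h N.2⟩ : Qt 𝓖 N) := rfl

theorem res_cont {𝓖 : Fam Γ} (h : 𝓖.mem ⊆ 𝓕.mem) : Continuous (res h) := by
  exact (res0_cont h).subtype_mk _

theorem res_emb {𝓖 : Fam Γ} (h : 𝓖.mem ⊆ 𝓕.mem) (w : Γ) : res h (emb 𝓕 w) = emb 𝓖 w := rfl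

theorem res_surj {𝓖 : Fam Γ} (h : 𝓖.mem ⊆ 𝓕.mem) : Function.Surjective (res h) := by
  have h1 : IsClosed (Set.range (res h)) := (isCompact_range (res_cont h)).isClosed
  have h2 : Set.range (emb 𝓖) ⊆ Set.range (res h) := by
    rintro _ ⟨w, rfl⟩
    exact ⟨emb 𝓕 w, rfl⟩
  have h3 := closure_minimal h2 h1
  rw [(emb_dense 𝓖).closure_range] at h3
  exact fun g => h3 (Set.mem_univ g)

theorem res_eq_one {𝓖 : Fam Γ} (h : 𝓖.mem ⊆ 𝓕.mem) (g : Cp 𝓕) :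
    res h g = 1 ↔ ∀ (N : Subgroup Γ) (hN : N ∈ 𝓖.mem), g.1 ⟨N, h hN⟩ = 1 := by
  constructor
  · intro h1 N hN
    exact congrFun (congrArg Subtype.val h1) ⟨N, hN⟩
  · intro h1
    apply Subtype.ext
    funext N
    exact h1 N.1 N.2

end Pool.Agent.V1128.LF
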