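import Mathlib

set_option autoImplicit false

/-!
The decomposition of an element of finite order in its 2-part and its odd part.
-/

namespace Pool.Agent.V1128.LF

theorem pow_eq_of_mod {H : Type} [Group H] {u : H} {A E c : ℕ} (hu : u ^ A = 1) (h : E ≡ c [MOD A]) :
    u ^ E = u ^ c := by
  rw [pow_eq_pow_iff_modEq]
  exact h.of_dvd (orderOf_dvd_of_pow_eq_one hu)

/-- Uniqueness of the decomposition. -/
theorem parts_unique {H : Type} [Group H] {u v u' v' : H} (h : u * v = u' * v') (hc : Commute u v)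
    (hc' : Commute u' v') {a a' k k' : ℕ} (hu : u ^ (2 ^ a) = 1) (hu' : u' ^ (2 ^ a') = 1)
    (hk : Odd k) (hk' : Odd k') (hv : v ^ k = 1) (hv' : v' ^ k' = 1) : u = u' ∧ v = v' := by
  have hcop : Nat.Coprime (2 ^ (a + a')) (k * k') := by
    apply Nat.Coprime.pow_left
    exact (Nat.coprime_two_left).mpr (hk.mul hk')
  obtain ⟨E, hE1, hE2⟩ := Nat.chineseRemainder hcop 1 0
  have e1 : u ^ E = u := by
    conv_rhs => rw [← pow_one u]
    exact pow_eq_of_mod (A := 2 ^ (a + a')) (by rw [pow_add, pow_mul, hu, one_pow]) hE1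
  have e2 : u' ^ E = u' := by
    conv_rhs => rw [← pow_one u']
    exact pow_eq_of_mod (A := 2 ^ (a + a')) (by rw [add_comm, pow_add, pow_mul, hu', one_pow]) hE1
  have e3 : v ^ E = 1 := by
    rw [← pow_zero v]
    exact pow_eq_of_mod (A := k * k') (by rw [pow_mul, hv, one_pow]) hE2
  have e4 : v' ^ E = 1 := by
    rw [← pow_zero v']
    exact pow_eq_of_mod (A := k * k') (by rw [mul_comm, pow_mul, hv', one_pow]) hE2
  have h1 := congrArg (fun w => w ^ E) h
  simp only [hc.mul_pow, hc'.mul_pow, e1, e2, e3, e4, mul_one] at h1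
  refine ⟨h1, ?_⟩
  rw [h1] at h
  exact mul_left_cancel h

/-- Existence of the decomposition. -/
theorem parts_exist {H : Type} [Group H] [Finite H] (w : H) :
    ∃ u v : H, u * v = w ∧ Commute u v ∧ (∃ a, u ^ (2 ^ a) = 1) ∧ ∃ k, Odd k ∧ v ^ k = 1 := by
  obtain ⟨a, m, hm, ho⟩ := Nat.exists_eq_two_pow_mul_odd (n := orderOf w) (orderOf_pos w).ne'
  have hcop : Nat.Coprime (2 ^ a) m := by
    apply Nat.Coprime.pow_left
    exact (Nat.coprime_two_left).mpr hm
  obtain ⟨E, hE1, hE2⟩ := Nat.chineseRemainder hcop 1 0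
  refine ⟨w ^ E, (w ^ E)⁻¹ * w, mul_inv_cancel_left _ _, ?_, ⟨a, ?_⟩, m, hm, ?_⟩
  · exact ((Commute.refl (w ^ E)).inv_right).mul_right ((Commute.refl w).pow_left E)
  · rw [← pow_mul, ← orderOf_dvd_iff_pow_eq_one, ho, mul_comm]
    exact mul_dvd_mul ((Nat.modEq_zero_iff_dvd).mp hE2) dvd_rfl
  · have hc : Commute (w ^ E)⁻¹ w := ((Commute.refl w).pow_left E).inv_left
    rw [hc.mul_pow, inv_pow, inv_mul_eq_one, ← pow_mul, pow_eq_pow_iff_modEq, ho]
    have h1 := hE1.mul_right' m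
    rw [one_mul] at h1
    exact h1

end Pool.Agent.V1128.LF
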