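import Mathlib
import Pool.Agent.V1128.LF.Comp
import Pool.Agent.V1128.LF.Parts

set_option autoImplicit false

/-!
The group `F_ω ⨿ ∐ ℤ_{2'}` and its quotients of finite rank.
-/

namespace Pool.Agent.V1128.LF

open scoped commutatorElement

/-- An uncountable set. -/
abbrev T : Type := ℕ → Bool

/-- The generators. -/
abbrev X : Type := ℕ ⊕ T

/-- The free group on the generators. -/
abbrev FF : Type := FreeGroup X

/-- The generators `x_j`. -/
def xx (j : ℕ) : FF := FreeGroup.of (Sum.inl j)

/-- The generators `t_β`. -/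
def tt (β : T) : FF := FreeGroup.of (Sum.inr β)

theorem up_pow {N M : Subgroup FF} (h : N ≤ M) {x : FF} {k : ℕ} (hx : x ^ k ∈ N) : x ^ k ∈ M := h hx

theorem inf_pow {N M : Subgroup FF} {x : FF} {k l : ℕ} (hx : x ^ k ∈ N) (hx' : x ^ l ∈ M) :
    x ^ (k * l) ∈ N ⊓ M := by
  constructor
  · rw [pow_mul]
    exact N.pow_mem hx l
  · rw [mul_comm, pow_mul]
    exact M.pow_mem hx' k

/-- The conditions on the normal subgroups. -/
structure Adm (N : Subgroup FF) : Prop where
  normal : N.Normal
  fin : N.FiniteIndex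
  supp : {x : X | FreeGroup.of x ∉ N}.Finite
  odd : ∀ β, ∃ k, Odd k ∧ tt β ^ k ∈ N

theorem Adm.up {N M : Subgroup FF} (h : Adm N) (hM : M.Normal) (hNM : N ≤ M) : Adm M where
  normal := hM
  fin := by
    have _ := h.fin
    exact Subgroup.finiteIndex_of_le hNM
  supp := h.supp.subset fun x hx h1 => hx (hNM h1)
  odd β := by
    obtain ⟨k, hk, h1⟩ := h.odd β
    exact ⟨k, hk, hNM h1⟩

theorem Adm.inf {N M : Subgroup FF} (h : Adm N) (h' : Adm M) : Adm (N ⊓ M) where
  normal := by
    have _ := h.normal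
    have _ := h'.normal
    infer_instance
  fin := by
    have _ := h.fin
    have _ := h'.fin
    infer_instance
  supp := by
    refine (h.supp.union h'.supp).subset fun x hx => ?_
    by_contra hcon
    simp only [Set.mem_union, Set.mem_ofPred_eq, not_or, not_not] at hcon
    exact hx hcon
  odd β := by
    obtain ⟨k, hk, h1⟩ := h.odd β
    obtain ⟨l, hl, h2⟩ := h'.odd β
    exact ⟨k * l, hk.mul hl, inf_pow h1 h2⟩

theorem Adm.top : Adm ⊤ where
  normal := inferInstance
  fin := inferInstance
  supp := by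
    convert Set.finite_empty
    ext x
    simp
  odd β := ⟨1, odd_one, trivial⟩

/-- The family that defines the group. -/
def FG : Fam FF where
  mem := {N | Adm N}
  normal := fun _ h => h.normal
  fin := fun _ h => h.fin
  up := fun _ h _ hM hNM => h.up hM hNM
  inf := fun _ h _ h' => h.inf h'
  top := Adm.top

/-- The indices of the quotients of finite rank. -/
structure Ix where
  n : ℕ
  s : Finset T
  f : T → ℕ
  inj : Set.InjOn f s
  ge : ∀ β ∈ s, n ≤ f β

/-- The conditions that define the quotients. -/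
structure AdmI (i : Ix) (N : Subgroup FF) : Prop where
  adm : Adm N
  hx : ∀ j, i.n ≤ j → (∀ β ∈ i.s, i.f β ≠ j) → xx j ∈ N
  ht : ∀ β, β ∉ i.s → tt β ∈ N
  two : ∀ β ∈ i.s, ∃ a : ℕ, xx (i.f β) ^ (2 ^ a) ∈ N
  comm : ∀ β ∈ i.s, ⁅xx (i.f β), tt β⁆ ∈ N

/-- The family that defines the quotient of index `i`. -/
def FI (i : Ix) : Fam FF where
  mem := {N | AdmI i N}
  normal := fun _ h => h.adm.normal
  fin := fun _ h => h.adm.fin
  up := fun _ h _ hM hNM =>
    { adm := h.adm.up hM hNM
      hx := fun j h1 h2 => hNM (h.hx j h1 h2)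
      ht := fun β h1 => hNM (h.ht β h1)
      two := fun β h1 => by
        obtain ⟨a, h2⟩ := h.two β h1
        exact ⟨a, hNM h2⟩
      comm := fun β h1 => hNM (h.comm β h1) }
  inf := fun _ h _ h' =>
    { adm := h.adm.inf h'.adm
      hx := fun j h1 h2 => ⟨h.hx j h1 h2, h'.hx j h1 h2⟩
      ht := fun β h1 => ⟨h.ht β h1, h'.ht β h1⟩
      two := fun β h1 => by
        obtain ⟨a, h2⟩ := h.two β h1
        obtain ⟨b, h3⟩ := h'.two β h1
        refine ⟨a + b, ?_⟩
        rw [pow_add]
        exact inf_pow h2 h3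
      comm := fun β h1 => ⟨h.comm β h1, h'.comm β h1⟩ }
  top :=
    { adm := Adm.top
      hx := fun _ _ _ => trivial
      ht := fun _ _ => trivial
      two := fun _ _ => ⟨0, trivial⟩
      comm := fun _ _ => trivial }

theorem FI_sub (i : Ix) : (FI i).mem ⊆ FG.mem := fun _ h => h.adm

theorem directed (i j : Ix) : ∃ k : Ix, (FI i).mem ⊆ (FI k).mem ∧ (FI j).mem ⊆ (FI k).mem := by
  classical
  -- a bound for everything
  obtain ⟨m, hm⟩ : ∃ m : ℕ, i.n < m ∧ j.n < m ∧ (∀ β ∈ i.s, i.f β < m) ∧ ∀ β ∈ j.s, j.f β < m := by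
    refine ⟨i.n + j.n + (∑ β ∈ i.s, i.f β) + (∑ β ∈ j.s, j.f β) + 1, by omega, by omega, fun β hβ => ?_,
      fun β hβ => ?_⟩
    · have := Finset.single_le_sum (f := i.f) (fun _ _ => Nat.zero_le _) hβ
      omega
    · have := Finset.single_le_sum (f := j.f) (fun _ _ => Nat.zero_le _) hβ
      omega
  obtain ⟨h1, h2, h3, h4⟩ := hm
  obtain ⟨g, hg⟩ : ∃ g : T → ℕ, Set.InjOn g (i.s ∪ j.s : Finset T) := by
    obtain ⟨g, hg⟩ := Set.countable_iff_exists_injOn.mp (i.s ∪ j.s).finite_toSet.countable
    exact ⟨g, hg⟩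
  let k : Ix :=
    { n := m
      s := i.s ∪ j.s
      f := fun β => m + g β
      inj := fun a ha b hb hab => hg ha hb (by simpa using hab)
      ge := fun β _ => Nat.le_add_right _ _ }
  have key : ∀ (l : Ix), l.n < m → (∀ β ∈ l.s, l.f β < m) → l.s ⊆ i.s ∪ j.s → (FI l).mem ⊆ (FI k).mem := by
    intro l e1 e2 e3 N hN
    have hxm : ∀ q, m ≤ q → xx q ∈ N := fun q hq =>
      hN.hx q (by omega) (fun β hβ h5 => by have := e2 β hβ; omega)
    exact
      { adm := hN.adm
        hx := fun q hq _ => hxm q hq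
        ht := fun β hβ => hN.ht β fun h5 => hβ (e3 h5)
        two := fun β _ => ⟨0, by
          rw [pow_zero, pow_one]
          exact hxm _ (Nat.le_add_right _ _)⟩
        comm := fun β _ => by
          have _ := hN.adm.normal
          have h5 : xx (k.f β) ∈ N := hxm _ (Nat.le_add_right _ _)
          rw [commutatorElement_def, mul_assoc, mul_assoc]
          refine N.mul_mem h5 ?_
          rw [← mul_assoc]
          exact hN.adm.normal.conj_mem _ (N.inv_mem h5) _ }
  exact ⟨k, key i h1 h3 Finset.subset_union_left, key j h2 h4 Finset.subset_union_right⟩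

theorem exhaust {N : Subgroup FF} (hN : Adm N) : ∃ i : Ix, AdmI i N := by
  classical
  -- the support
  have h1 : {j : ℕ | xx j ∉ N}.Finite := hN.supp.preimage (f := Sum.inl) (Sum.inl_injective.injOn)
  have h2 : {β : T | tt β ∉ N}.Finite := hN.supp.preimage (f := Sum.inr) (Sum.inr_injective.injOn)
  obtain ⟨m, hm⟩ := h1.bddAbove
  obtain ⟨g, hg⟩ := Set.countable_iff_exists_injOn.mp h2.countable
  have hxm : ∀ q, m + 1 ≤ q → xx q ∈ N := by
    intro q hq
    by_contra hcon
    have := hm hcon
    omega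
  refine ⟨{ n := m + 1
            s := h2.toFinset
            f := fun β => m + 1 + g β
            inj := fun a ha b hb hab => hg (by simpa using ha) (by simpa using hb) (by simpa using hab)
            ge := fun β _ => Nat.le_add_right _ _ },
    { adm := hN
      hx := fun q hq _ => hxm q hq
      ht := fun β hβ => by
        by_contra hcon
        exact hβ (h2.mem_toFinset.mpr hcon)
      two := fun β _ => ⟨0, by
        rw [pow_zero, pow_one]
        exact hxm _ (Nat.le_add_right _ _)⟩
      comm := fun β _ => ?_ }⟩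
  have h5 : xx (m + 1 + g β) ∈ N := hxm _ (Nat.le_add_right _ _)
  rw [commutatorElement_def, mul_assoc, mul_assoc]
  refine N.mul_mem h5 ?_
  rw [← mul_assoc]
  exact hN.normal.conj_mem _ (N.inv_mem h5) _

end Pool.Agent.V1128.LF
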