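import Mathlib
import Pool.Agent.V1128.LF.Fams

set_option autoImplicit false

/-!
The quotients of finite rank are free profinite groups.
-/

namespace Pool.Agent.V1128.LF

open scoped commutatorElement

/-- The basis of the quotient of index `i`. -/
def bas (i : Ix) : Fin i.n ⊕ i.s → Cp (FI i)
  | Sum.inl j => emb (FI i) (xx j)
  | Sum.inr β => emb (FI i) (xx (i.f β) * tt β)

theorem comm_of_mem {H : Type} [Group H] {θ : FF →* H} {x y : FF} (h : ⁅x, y⁆ ∈ θ.ker) : Commute (θ x) (θ y) := by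
  rw [MonoidHom.mem_ker, map_commutatorElement, commutatorElement_eq_one_iff_mul_comm] at h
  exact h

theorem pow_of_mem {H : Type} [Group H] {θ : FF →* H} {x : FF} {k : ℕ} (h : x ^ k ∈ θ.ker) : θ x ^ k = 1 := by
  rw [MonoidHom.mem_ker, map_pow] at h
  exact h

theorem hom_ext {H : Type} [Group H] {i : Ix} {θ η : FF →* H} (hθ : AdmI i θ.ker) (hη : AdmI i η.ker)
    (h1 : ∀ j < i.n, θ (xx j) = η (xx j)) (h2 : ∀ β ∈ i.s, θ (xx (i.f β) * tt β) = η (xx (i.f β) * tt β)) :
    θ = η := by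
  have key : ∀ β ∈ i.s, θ (xx (i.f β)) = η (xx (i.f β)) ∧ θ (tt β) = η (tt β) := by
    intro β hβ
    obtain ⟨a, ha⟩ := hθ.two β hβ
    obtain ⟨b, hb⟩ := hη.two β hβ
    obtain ⟨k, hk, hk1⟩ := hθ.adm.odd β
    obtain ⟨l, hl, hl1⟩ := hη.adm.odd β
    have h3 := h2 β hβ
    rw [map_mul, map_mul] at h3
    exact parts_unique h3 (comm_of_mem (hθ.comm β hβ)) (comm_of_mem (hη.comm β hβ)) (pow_of_mem ha)
      (pow_of_mem hb) hk hl (pow_of_mem hk1) (pow_of_mem hl1)
  apply FreeGroup.ext_hom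
  rintro (j | β)
  · change θ (xx j) = η (xx j)
    by_cases hj : j < i.n
    · exact h1 j hj
    · by_cases hj2 : ∀ β ∈ i.s, i.f β ≠ j
      · have e1 : θ (xx j) = 1 := hθ.hx j (not_lt.mp hj) hj2
        have e2 : η (xx j) = 1 := hη.hx j (not_lt.mp hj) hj2
        rw [e1, e2]
      · push Not at hj2
        obtain ⟨β, hβ, rfl⟩ := hj2
        exact (key β hβ).1
  · change θ (tt β) = η (tt β)
    by_cases hβ : β ∈ i.s
    · exact (key β hβ).2
    · have e1 : θ (tt β) = 1 := hθ.ht β hβ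
      have e2 : η (tt β) = 1 := hη.ht β hβ
      rw [e1, e2]

theorem hom_exists {H : Type} [Group H] [Finite H] (i : Ix) (φ : Fin i.n ⊕ i.s → H) :
    ∃ θ : FF →* H, AdmI i θ.ker ∧ (∀ j : Fin i.n, θ (xx j) = φ (Sum.inl j)) ∧
      ∀ β : i.s, θ (xx (i.f β) * tt β) = φ (Sum.inr β) := by
  classical
  choose U V hUV hc hU hV using fun w : H => parts_exist w
  let g : X → H := fun x => match x with
    | Sum.inl j => if h : j < i.n then φ (Sum.inl ⟨j, h⟩) else
        if h : ∃ β : i.s, i.f β = j then U (φ (Sum.inr h.choose)) else 1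
    | Sum.inr β => if h : β ∈ i.s then V (φ (Sum.inr ⟨β, h⟩)) else 1
  let θ : FF →* H := FreeGroup.lift g
  have hθx : ∀ j, θ (xx j) = g (Sum.inl j) := fun j => FreeGroup.lift_apply_of
  have hθt : ∀ β, θ (tt β) = g (Sum.inr β) := fun β => FreeGroup.lift_apply_of
  have e1 : ∀ j (h : j < i.n), θ (xx j) = φ (Sum.inl ⟨j, h⟩) := by
    intro j h
    rw [hθx]
    simp only [g, dif_pos h]
  have e2 : ∀ β : i.s, θ (xx (i.f β)) = U (φ (Sum.inr β)) := by
    intro β
    rw [hθx]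
    have h1 : ¬ i.f β < i.n := not_lt.mpr (i.ge β β.2)
    have h2 : ∃ β' : i.s, i.f β' = i.f β := ⟨β, rfl⟩
    simp only [g, dif_neg h1, dif_pos h2]
    have h3 : h2.choose = β := Subtype.ext (i.inj h2.choose.2 β.2 h2.choose_spec)
    rw [h3]
  have e3 : ∀ j, i.n ≤ j → (∀ β ∈ i.s, i.f β ≠ j) → θ (xx j) = 1 := by
    intro j h1 h2
    rw [hθx]
    have h3 : ¬ j < i.n := not_lt.mpr h1
    have h4 : ¬ ∃ β' : i.s, i.f β' = j := fun ⟨β, hβ⟩ => h2 β β.2 hβ
    simp only [g, dif_neg h3, dif_neg h4]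
  have e4 : ∀ β : i.s, θ (tt β) = V (φ (Sum.inr β)) := by
    intro β
    rw [hθt]
    simp only [g, dif_pos β.2]
  have e5 : ∀ β, β ∉ i.s → θ (tt β) = 1 := by
    intro β h
    rw [hθt]
    simp only [g, dif_neg h]
  refine ⟨θ, ?_, fun j => e1 j j.2, fun β => by rw [map_mul, e2, e4, hUV]⟩
  exact
    { adm :=
        { normal := inferInstance
          fin := Subgroup.finiteIndex_ker θ
          supp := by
            have h1 : (Sum.inl '' (Set.Iio i.n ∪ i.f '' i.s) ∪ Sum.inr '' (i.s : Set T) : Set X).Finite :=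
              (((Set.finite_Iio _).union (i.s.finite_toSet.image _)).image _).union
                (i.s.finite_toSet.image _)
            refine h1.subset ?_
            rintro (j | β) hx
            · left
              refine ⟨j, ?_, rfl⟩
              by_contra hcon
              simp only [Set.mem_union, Set.mem_Iio, not_or, not_lt] at hcon
              exact hx (e3 j hcon.1 fun β hβ h => hcon.2 ⟨β, hβ, h⟩)
            · right
              refine ⟨β, ?_, rfl⟩
              by_contra hcon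
              exact hx (e5 β hcon)
          odd := fun β => by
            by_cases hβ : β ∈ i.s
            · obtain ⟨k, hk, h1⟩ := hV (φ (Sum.inr ⟨β, hβ⟩))
              refine ⟨k, hk, ?_⟩
              rw [MonoidHom.mem_ker, map_pow, e4 ⟨β, hβ⟩, h1]
            · refine ⟨1, odd_one, ?_⟩
              rw [pow_one]
              exact e5 β hβ }
      hx := e3
      ht := e5
      two := fun β hβ => by
        obtain ⟨a, h1⟩ := hU (φ (Sum.inr ⟨β, hβ⟩))
        refine ⟨a, ?_⟩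
        rw [MonoidHom.mem_ker, map_pow, e2 ⟨β, hβ⟩, h1]
      comm := fun β hβ => by
        rw [MonoidHom.mem_ker, map_commutatorElement, commutatorElement_eq_one_iff_mul_comm,
          e2 ⟨β, hβ⟩, e4 ⟨β, hβ⟩]
        exact hc _ }

theorem free_B (i : Ix) (H : Type) [Group H] [Finite H] (φ : Fin i.n ⊕ i.s → H) :
    ∃! h : Cp (FI i) →* H, IsOpen (h.ker : Set (Cp (FI i))) ∧ ∀ b, h (bas i b) = φ b := by
  obtain ⟨θ, h1, h2, h3⟩ := hom_exists i φ
  obtain ⟨Φ, h4, h5⟩ := ext (𝓕 := FI i) θ h1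
  refine ⟨Φ, ⟨h4, ?_⟩, ?_⟩
  · rintro (j | β)
    · exact (h5 _).trans (h2 j)
    · exact (h5 _).trans (h3 β)
  · rintro Ψ ⟨h6, h7⟩
    apply uniq h6 h4
    have h8 : Ψ.comp (emb (FI i)) = Φ.comp (emb (FI i)) := by
      apply hom_ext (i := i) (ker_mem h6) (ker_mem h4)
      · intro j hj
        have e1 := h7 (Sum.inl ⟨j, hj⟩)
        exact e1.trans ((h5 _).trans (h2 ⟨j, hj⟩)).symm
      · intro β hβ
        have e1 := h7 (Sum.inr ⟨β, hβ⟩)
        exact e1.trans ((h5 _).trans (h3 ⟨β, hβ⟩)).symm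
    exact fun w => DFunLike.congr_fun h8 w

theorem free_i (i : Ix) : ∃ (n : ℕ) (ι : Fin n → Cp (FI i)),
    ∀ (H : Type) (_ : Group H) (_ : Finite H) (φ : Fin n → H),
      ∃! h : Cp (FI i) →* H, IsOpen (h.ker : Set (Cp (FI i))) ∧ ∀ k, h (ι k) = φ k := by
  classical
  let e : Fin i.n ⊕ i.s ≃ Fin (Fintype.card (Fin i.n ⊕ i.s)) := Fintype.equivFin _
  refine ⟨_, fun k => bas i (e.symm k), fun H _ _ φ => ?_⟩
  obtain ⟨h, ⟨h1, h2⟩, h3⟩ := free_B i H (fun b => φ (e b))
  refine ⟨h, ⟨h1, fun k => ?_⟩, fun h' h4 => ?_⟩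
  · rw [h2, e.apply_symm_apply]
  · apply h3
    refine ⟨h4.1, fun b => ?_⟩
    have := h4.2 (e b)
    beta_reduce at this
    rwa [e.symm_apply_apply] at this

end Pool.Agent.V1128.LF
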