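import Mathlib
import Pool.Agent.V1128.LF.Free

set_option autoImplicit false

/-!
The group is not free.
-/

namespace Pool.Agent.V1128.LF

open scoped commutatorElement

/-- The group. -/
abbrev GG : Type := Cp FG

theorem countable_fs {A C : Type} [Countable A] [Countable C] (c₀ : C) :
    Countable {f : A → C // {a | f a ≠ c₀}.Finite} := by
  classical
  let e : {f : A → C // {a | f a ≠ c₀}.Finite} → Finset (A × C) := fun f =>
    f.2.toFinset.image fun a => (a, f.1 a)
  have he : Function.Injective e := by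
    intro f g hfg
    have key : ∀ f g : {f : A → C // {a | f a ≠ c₀}.Finite}, e f = e g → ∀ a, f.1 a ≠ c₀ → g.1 a = f.1 a := by
      intro f g hfg a ha
      have h1 : (a, f.1 a) ∈ e f := Finset.mem_image.mpr ⟨a, f.2.mem_toFinset.mpr ha, rfl⟩
      rw [hfg] at h1
      obtain ⟨b, -, hb⟩ := Finset.mem_image.mp h1
      rw [Prod.mk.injEq] at hb
      rw [← hb.2, hb.1]
    apply Subtype.ext
    funext a
    by_cases h1 : f.1 a = c₀
    · by_cases h2 : g.1 a = c₀
      · rw [h1, h2]
      · exact key g f hfg.symm a h2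
    · exact (key f g hfg a h1).symm
  exact he.countable

theorem fin_of_open {H : Type} [Group H] {Φ : GG →* H} (hΦ : IsOpen (Φ.ker : Set GG)) :
    {x : X | Φ (emb FG (FreeGroup.of x)) ≠ 1}.Finite := (ker_mem hΦ).supp

theorem odd_of_open {H : Type} [Group H] {Φ : GG →* H} (hΦ : IsOpen (Φ.ker : Set GG)) (β : T) :
    ∃ k, Odd k ∧ Φ (emb FG (tt β)) ^ k = 1 := by
  obtain ⟨k, hk, h1⟩ := (ker_mem hΦ).odd β
  refine ⟨k, hk, ?_⟩
  rw [← map_pow, ← map_pow]
  exact h1

/-- Homomorphisms to groups of order 2. -/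
theorem two_countable : Countable {Φ : GG →* Multiplicative (ZMod 2) // IsOpen (Φ.ker : Set GG)} := by
  have _ := countable_fs (A := ℕ) (C := Multiplicative (ZMod 2)) 1
  let e : {Φ : GG →* Multiplicative (ZMod 2) // IsOpen (Φ.ker : Set GG)} →
      {f : ℕ → Multiplicative (ZMod 2) // {a | f a ≠ 1}.Finite} := fun Φ =>
    ⟨fun j => Φ.1 (emb FG (xx j)), (fin_of_open Φ.2).preimage (f := Sum.inl) Sum.inl_injective.injOn⟩
  have he : Function.Injective e := by
    intro Φ Ψ h
    have h1 : ∀ j, Φ.1 (emb FG (xx j)) = Ψ.1 (emb FG (xx j)) := fun j => congrFun (congrArg Subtype.val h) j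
    have h2 : ∀ (Φ : {Φ : GG →* Multiplicative (ZMod 2) // IsOpen (Φ.ker : Set GG)}) β,
        Φ.1 (emb FG (tt β)) = 1 := by
      intro Φ β
      obtain ⟨k, ⟨l, rfl⟩, h3⟩ := odd_of_open Φ.2 β
      have h4 : ∀ z : Multiplicative (ZMod 2), z ^ 2 = 1 := by decide
      rwa [pow_succ, pow_mul, h4, one_pow, one_mul] at h3
    apply Subtype.ext
    apply uniq Φ.2 Ψ.2
    have h3 : Φ.1.comp (emb FG) = Ψ.1.comp (emb FG) := by
      apply FreeGroup.ext_hom
      rintro (j | β)
      · exact h1 j
      · exact (h2 Φ β).trans (h2 Ψ β).symm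
    exact fun w => DFunLike.congr_fun h3 w
  exact he.countable

/-- Homomorphisms to groups of order 3. -/
theorem three_exists (β : T) : ∃ Φ : GG →* Multiplicative (ZMod 3), IsOpen (Φ.ker : Set GG) ∧
    Φ (emb FG (tt β)) ≠ 1 ∧ ∀ γ, γ ≠ β → Φ (emb FG (tt γ)) = 1 := by
  classical
  let g : X → Multiplicative (ZMod 3) := fun x => if x = Sum.inr β then Multiplicative.ofAdd 1 else 1
  let θ : FF →* Multiplicative (ZMod 3) := FreeGroup.lift g
  have hθ : ∀ x, θ (FreeGroup.of x) = g x := fun x => FreeGroup.lift_apply_of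
  have h3 : ∀ z : Multiplicative (ZMod 3), z ^ 3 = 1 := by decide
  have hadm : Adm θ.ker :=
    { normal := inferInstance
      fin := Subgroup.finiteIndex_ker θ
      supp := by
        refine (Set.finite_singleton (Sum.inr β : X)).subset fun x hx => ?_
        by_contra hcon
        apply hx
        rw [MonoidHom.mem_ker, hθ]
        simp only [g, if_neg (show ¬ x = Sum.inr β from hcon)]
      odd := fun γ => ⟨3, by decide, by rw [MonoidHom.mem_ker, map_pow, h3]⟩ }
  obtain ⟨Φ, h1, h2⟩ := ext (𝓕 := FG) θ hadm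
  refine ⟨Φ, h1, ?_, fun γ hγ => ?_⟩
  · rw [h2, tt, hθ]
    simp only [g, if_true]
    decide
  · rw [h2, tt, hθ]
    have : ¬ (Sum.inr γ : X) = Sum.inr β := fun h => hγ (Sum.inr_injective h)
    simp only [g, if_neg this]

theorem not_free : ¬ ∃ (Y : Type) (ι : Y → GG),
    (∀ U : Set GG, IsOpen U → (1 : GG) ∈ U → {x | ι x ∉ U}.Finite) ∧
    ∀ (H : Type) (_ : Group H) (_ : Finite H) (φ : Y → H), {x | φ x ≠ 1}.Finite →
      ∃! h : GG →* H, IsOpen (h.ker : Set GG) ∧ ∀ x, h (ι x) = φ x := by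
  classical
  rintro ⟨Y, ι, h1, h2⟩
  -- `Y` is countable
  have hY : Countable Y := by
    have _ := two_countable
    let g : Y → Y → Multiplicative (ZMod 2) := fun y x => if x = y then Multiplicative.ofAdd 1 else 1
    have hg : ∀ y, {x | g y x ≠ 1}.Finite := fun y => by
      refine (Set.finite_singleton y).subset fun x hx => ?_
      by_contra hcon
      apply hx
      simp only [g, if_neg (show ¬ x = y from hcon)]
    choose Φ hΦ _ using fun y => h2 (Multiplicative (ZMod 2)) _ inferInstance (g y) (hg y)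
    have hinj : Function.Injective (fun y => (⟨Φ y, (hΦ y).1⟩ :
        {Φ : GG →* Multiplicative (ZMod 2) // IsOpen (Φ.ker : Set GG)})) := by
      intro y z hyz
      have h3 : Φ y = Φ z := congrArg Subtype.val hyz
      have h4 : Φ y (ι y) = Φ z (ι y) := by rw [h3]
      rw [(hΦ y).2, (hΦ z).2] at h4
      by_contra hne
      simp only [g, if_true, if_neg hne] at h4
      exact absurd h4 (by decide)
    exact hinj.countable
  -- the set of homomorphisms to the group of order 3 is countable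
  have h3 := countable_fs (A := Y) (C := Multiplicative (ZMod 3)) 1
  choose Ψ hΨ1 hΨ2 hΨ3 using three_exists
  have hfin : ∀ β, {y | Ψ β (ι y) ≠ 1}.Finite := fun β =>
    h1 ((Ψ β).ker : Set GG) (hΨ1 β) (Ψ β).ker.one_mem
  have hinj : Function.Injective (fun β => (⟨fun y => Ψ β (ι y), hfin β⟩ :
      {f : Y → Multiplicative (ZMod 3) // {a | f a ≠ 1}.Finite})) := by
    intro β γ hβγ
    have h4 : ∀ y, Ψ β (ι y) = Ψ γ (ι y) := fun y => congrFun (congrArg Subtype.val hβγ) y
    have h5 : Ψ β = Ψ γ := by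
      apply (h2 (Multiplicative (ZMod 3)) _ inferInstance _ (hfin β)).unique
      · exact ⟨hΨ1 β, fun _ => rfl⟩
      · exact ⟨hΨ1 γ, fun y => (h4 y).symm⟩
    by_contra hne
    apply hΨ2 β
    rw [h5]
    exact hΨ3 γ β hne
  have h6 : Countable T := hinj.countable
  obtain ⟨f, hf⟩ := exists_surjective_nat T
  obtain ⟨m, hm⟩ := hf fun n => !(f n n)
  have h7 := congrFun hm m
  cases h8 : f m m <;> rw [h8] at h7 <;> simp at h7

end Pool.Agent.V1128.LF
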